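import Pool.Agent.Helper91.GU.StB

/-!
# Module B2 of project GU (MP_b1e6de_al): generators congruent modulo `I²`

No localisation of a localisation is used: the statement is proved in the form `for every ring
homomorphism φ such that φ f is a unit`.
-/

set_option autoImplicit false

namespace Pool.Agent.Helper93.GU

open Pool.Agent.Helper91.GU

universe u

section rows

variable {n : Type} [Fintype n] [DecidableEq n] {B : Type u} [CommRing B]

theorem eeq_refl (v : n → B) : EEq v v := ⟨1, (Elem n B).one_mem, by rw [Matrix.vecMul_one]⟩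

theorem eeq_trans {v w x : n → B} (h1 : EEq v w) (h2 : EEq w x) : EEq v x := by
  obtain ⟨e, he, rfl⟩ := h1
  obtain ⟨f, hf, rfl⟩ := h2
  exact ⟨e * f, (Elem n B).mul_mem he hf, by rw [Matrix.vecMul_vecMul]⟩

theorem eeq_add {i j : n} (hij : i ≠ j) (v : n → B) (c : B) :
    EEq v (Function.update v j (v j + c * v i)) := by
  refine ⟨Matrix.transvection i j c, Submonoid.subset_closure ⟨i, j, c, hij, rfl⟩, ?_⟩
  rw [Matrix.transvection, Matrix.vecMul_add, Matrix.vecMul_one]
  funext l
  by_cases hl : l = j
  · subst hl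
    simp [Matrix.vecMul, dotProduct, Matrix.single_apply, mul_comm]
  · rw [Function.update_of_ne hl]
    have : ¬ j = l := fun h => hl h.symm
    simp [Matrix.vecMul, dotProduct, Matrix.single_apply, this]

theorem eeq_sum {j : n} (v : n → B) (μ : n → B) (s : Finset n) (hs : j ∉ s) :
    EEq v (Function.update v j (v j + ∑ l ∈ s, μ l * v l)) := by
  induction s using Finset.induction_on with
  | empty => simpa using eeq_refl v
  | insert i s his ih =>
    have hj : j ∉ s := fun h => hs (Finset.mem_insert_of_mem h)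
    have hij : i ≠ j := fun h => hs (h ▸ Finset.mem_insert_self _ _)
    refine eeq_trans (ih hj) ?_
    have h1 := eeq_add hij (Function.update v j (v j + ∑ l ∈ s, μ l * v l)) (μ i)
    rw [Function.update_idem, Function.update_self, Function.update_of_ne hij] at h1
    rw [Finset.sum_insert his]
    have e : v j + (μ i * v i + ∑ l ∈ s, μ l * v l) = v j + ∑ l ∈ s, μ l * v l + μ i * v i := by
      ring
    rw [e]
    exact h1

/-- `(x, y) ~ (a x, y)` for `a = 1 + s x` a unit -/
theorem eeq_scale {i j : n} (hij : i ≠ j) (v : n → B) (s a' : B) (ha : (1 + s * v j) * a' = 1) :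
    EEq v (Function.update v j ((1 + s * v j) * v j)) := by
  have hji : j ≠ i := hij.symm
  set a : B := 1 + s * v j with had
  set v1 := Function.update v j (v j + (a' - 1) * v i) with hv1
  set v2 := Function.update v1 i (v1 i + 1 * v1 j) with hv2
  set v3 := Function.update v2 j (v2 j + (a - 1) * v2 i) with hv3
  set v4 := Function.update v3 i (v3 i + (a' * (v i * s * a' - 1)) * v3 j) with hv4
  have h1 : EEq v v1 := eeq_add hij v _
  have h2 : EEq v1 v2 := eeq_add hji v1 _
  have h3 : EEq v2 v3 := eeq_add hij v2 _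
  have h4 : EEq v3 v4 := eeq_add hji v3 _
  have e1j : v1 j = v j + (a' - 1) * v i := by rw [hv1, Function.update_self]
  have e1i : v1 i = v i := by rw [hv1, Function.update_of_ne hij]
  have e2i : v2 i = v j + a' * v i := by
    rw [hv2, Function.update_self, e1j, e1i]; ring
  have e2j : v2 j = v j + (a' - 1) * v i := by rw [hv2, Function.update_of_ne hji, e1j]
  have e3j : v3 j = a * v j := by
    rw [hv3, Function.update_self, e2j, e2i]
    have : (a - 1) * (a' * v i) = (1 - a') * v i := by
      have : (a - 1) * (a' * v i) = (a * a') * v i - a' * v i := by ring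
      rw [this, ha]; ring
    linear_combination this
  have e3i : v3 i = v j + a' * v i := by rw [hv3, Function.update_of_ne hij, e2i]
  have e4i : v4 i = v i := by
    rw [hv4, Function.update_self, e3i, e3j]
    have h5 : a' * (v i * s * a' - 1) * (a * v j) = (a * a') * ((v i * s * a' - 1) * v j) := by
      ring
    rw [h5, ha]
    have h8 : (1 + s * v j) * a' = 1 := ha
    have h7 : a' * v i + v i * s * a' * v j = v i := by
      linear_combination (v i) * h8
    linear_combination h7
  have e4j : v4 j = a * v j := by rw [hv4, Function.update_of_ne hji, e3j]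
  have e : v4 = Function.update v j (a * v j) := by
    funext l
    by_cases hl : l = j
    · subst hl; rw [e4j, Function.update_self]
    · rw [Function.update_of_ne hl]
      by_cases hl2 : l = i
      · subst hl2; exact e4i
      · rw [hv4, Function.update_of_ne hl2, hv3, Function.update_of_ne hl, hv2,
          Function.update_of_ne hl2, hv1, Function.update_of_ne hl]
  rw [← e]
  exact eeq_trans h1 (eeq_trans h2 (eeq_trans h3 h4))

/-- one coordinate is changed -/
theorem eeq_one {i j : n} (hij : i ≠ j) (d : n → B) (ν s : n → B) (a' : B)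
    (hν : ν j = ∑ l, s l * d l) (ha : (1 + s j * d j) * a' = 1) :
    EEq d (Function.update d j (d j + ∑ l, ν l * d l)) := by
  refine eeq_trans (eeq_scale hij d (s j) a' ha) ?_
  set w := Function.update d j ((1 + s j * d j) * d j) with hw
  have h1 := eeq_sum (j := j) w (fun l => s l * d j + ν l) (Finset.univ.erase j)
    (Finset.notMem_erase j _)
  have e : Function.update w j (w j + ∑ l ∈ Finset.univ.erase j, (s l * d j + ν l) * w l)
      = Function.update d j (d j + ∑ l, ν l * d l) := by
    rw [hw, Function.update_idem, Function.update_self]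
    congr 1
    have h2 : ∑ l ∈ Finset.univ.erase j, (s l * d j + ν l) *
        Function.update d j ((1 + s j * d j) * d j) l
        = d j * ∑ l ∈ Finset.univ.erase j, s l * d l + ∑ l ∈ Finset.univ.erase j, ν l * d l := by
      rw [Finset.mul_sum, ← Finset.sum_add_distrib]
      apply Finset.sum_congr rfl
      intro l hl
      rw [Function.update_of_ne (Finset.ne_of_mem_erase hl)]
      ring
    rw [h2]
    have h3 : ∑ l, s l * d l = s j * d j + ∑ l ∈ Finset.univ.erase j, s l * d l :=
      (Finset.add_sum_erase Finset.univ (fun l => s l * d l) (Finset.mem_univ j)).symm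
    have h4 : ∑ l, ν l * d l = ν j * d j + ∑ l ∈ Finset.univ.erase j, ν l * d l :=
      (Finset.add_sum_erase Finset.univ (fun l => ν l * d l) (Finset.mem_univ j)).symm
    rw [h4, hν, h3]
    ring
  rw [e] at h1
  exact h1

end rows

/-- elements of `(d)²` -/
theorem exists_coeffs {r : ℕ} {A : Type u} [CommRing A] (d : Fin r → A) (x : A)
    (hx : x ∈ idl d ^ 2) (j : Fin r) :
    ∃ ν s : Fin r → A, x = ∑ l, ν l * d l ∧ ν j = ∑ l, s l * d l := by
  rw [pow_two, ← smul_eq_mul] at hx
  have hx' : x ∈ (idl d) • Submodule.span A (Set.range d) := hx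
  rw [Submodule.mem_ideal_smul_span_iff_exists_sum] at hx'
  obtain ⟨a, ha, hsum⟩ := hx'
  have h1 : a j ∈ Ideal.span (Set.range d) := ha j
  rw [Ideal.mem_span_range_iff_exists_fun] at h1
  obtain ⟨s, hs⟩ := h1
  refine ⟨fun l => a l, s, ?_, hs.symm⟩
  rw [← hsum, Finsupp.sum_fintype _ _ (by simp)]
  simp

theorem stepA {r : ℕ} (hr : 2 ≤ r) {A : Type u} [CommRing A] (I : Ideal A) (hI : I.FG)
    (d d' : Fin r → A) (j : Fin r) (hd : ∀ l, l ≠ j → d' l = d l)
    (hdI : idl d ≤ I) (hId : I ≤ idl d ⊔ I * I) (hx : d' j - d j ∈ I ^ 2) :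
    ∃ f : A, f - 1 ∈ I ∧ ∀ (B : Type u) [CommRing B] (φ : A →+* B), IsUnit (φ f) →
      EEq (mp φ d) (mp φ d') := by
  obtain ⟨g, hg1, hg2⟩ := Submodule.exists_sub_one_mem_and_smul_le_of_fg_of_le_sup
    (I := I) (N := idl d) (N' := I) (P := I) hI le_rfl (by simpa using hId)
  have hgI : ∀ x ∈ I, g * x ∈ idl d := fun x hx =>
    hg2 (Submodule.smul_mem_pointwise_smul x g I hx)
  have hgg : ∀ x ∈ I ^ 2, g ^ 2 * x ∈ idl d ^ 2 := by
    intro x hx
    rw [pow_two I] at hx
    rw [pow_two (idl d)]
    refine Submodule.mul_induction_on hx ?_ ?_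
    · intro u hu v hv
      have e : g ^ 2 * (u * v) = (g * u) * (g * v) := by ring
      rw [e]
      exact Ideal.mul_mem_mul (hgI u hu) (hgI v hv)
    · intro u v hu hv
      rw [mul_add]
      exact Ideal.add_mem _ hu hv
  obtain ⟨ν, s, hν, hs⟩ := exists_coeffs d _ (hgg _ hx) j
  obtain ⟨i, hij⟩ : ∃ i : Fin r, i ≠ j := by
    haveI : Nontrivial (Fin r) := Fin.nontrivial_iff_two_le.2 hr
    exact exists_ne j
  refine ⟨g * (g ^ 2 + s j * d j), ?_, ?_⟩
  · have hdj : d j ∈ I := hdI (Ideal.subset_span ⟨j, rfl⟩)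
    have e : g * (g ^ 2 + s j * d j) - 1 = (g - 1) * (g ^ 2 + g + 1) + (g * s j) * d j := by ring
    rw [e]
    exact Ideal.add_mem _ (Ideal.mul_mem_right _ _ hg1) (Ideal.mul_mem_left _ _ hdj)
  · intro B _ φ hu
    rw [map_mul] at hu
    have hu1 : IsUnit (φ g) := isUnit_of_mul_isUnit_left hu
    have hu2 : IsUnit (φ (g ^ 2 + s j * d j)) := isUnit_of_mul_isUnit_right hu
    obtain ⟨q, hq⟩ := hu1.exists_right_inv
    obtain ⟨p, hp⟩ := hu2.exists_right_inv
    have hq2 : φ g ^ 2 * q ^ 2 = 1 := by rw [← mul_pow, hq, one_pow]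
    have key := eeq_one hij (mp φ d) (fun l => q ^ 2 * φ (ν l)) (fun l => q ^ 2 * φ (s l))
      (p * φ g ^ 2)
      (by
        show q ^ 2 * φ (ν j) = _
        rw [hs, map_sum, Finset.mul_sum]
        apply Finset.sum_congr rfl
        intro l _
        rw [map_mul]
        show _ = q ^ 2 * φ (s l) * φ (d l)
        ring)
      (by
        show (1 + q ^ 2 * φ (s j) * φ (d j)) * (p * φ g ^ 2) = 1
        rw [map_add, map_pow, map_mul] at hp
        linear_combination hp + (φ (s j) * φ (d j) * p) * hq2)
    have e : Function.update (mp φ d) j (mp φ d j + ∑ l, q ^ 2 * φ (ν l) * mp φ d l) = mp φ d' := by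
      funext l
      by_cases hl : l = j
      · subst hl
        rw [Function.update_self]
        have h1 : ∑ k, q ^ 2 * φ (ν k) * mp φ d k = q ^ 2 * φ (g ^ 2 * (d' l - d l)) := by
          rw [hν, map_sum, Finset.mul_sum]
          apply Finset.sum_congr rfl
          intro k _
          rw [map_mul]
          show q ^ 2 * φ (ν k) * φ (d k) = _
          ring
        rw [h1, map_mul, map_pow, map_sub]
        show φ (d l) + _ = φ (d' l)
        linear_combination (φ (d' l) - φ (d l)) * hq2
      · rw [Function.update_of_ne hl]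
        show φ (d l) = φ (d' l)
        rw [hd l hl]
    rw [e] at key
    exact key

theorem main {r : ℕ} (hr : 2 ≤ r) {A : Type u} [CommRing A] (c c' : Fin r → A)
    (hc : ∀ j, c' j - c j ∈ (idl c) ^ 2) (k : ℕ) (hk : k ≤ r) :
    ∃ f : A, f - 1 ∈ idl c ∧ ∀ (B : Type u) [CommRing B] (φ : A →+* B), IsUnit (φ f) →
      EEq (mp φ c) (mp φ (fun l => if (l : ℕ) < k then c' l else c l)) := by
  induction k with
  | zero =>
    refine ⟨1, by simp, ?_⟩
    intro B _ φ _
    simpa using eeq_refl (mp φ c)
  | succ k ih =>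
    obtain ⟨f, hf, hB⟩ := ih (by omega)
    set d : Fin r → A := fun l => if (l : ℕ) < k then c' l else c l with hd
    set d' : Fin r → A := fun l => if (l : ℕ) < k + 1 then c' l else c l with hd'
    have hI2 : idl c ^ 2 ≤ idl c := Ideal.pow_le_self two_ne_zero
    have hc'I : ∀ l, c' l ∈ idl c := fun l => by
      have h1 : c' l = (c' l - c l) + c l := by ring
      rw [h1]
      exact Ideal.add_mem _ (hI2 (hc l)) (Ideal.subset_span ⟨l, rfl⟩)
    have hdl : ∀ l, d l ∈ idl c := fun l => by
      rw [hd]; dsimp only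
      split_ifs
      · exact hc'I l
      · exact Ideal.subset_span ⟨l, rfl⟩
    obtain ⟨g, hg, hB2⟩ := stepA hr (idl c) (Submodule.fg_span (Set.finite_range c)) d d'
      ⟨k, by omega⟩
      (fun l hl => by
        have hlk : (l : ℕ) ≠ k := fun h => hl (Fin.ext h)
        rw [hd, hd']; dsimp only
        by_cases h : (l : ℕ) < k
        · rw [if_pos h, if_pos (by omega)]
        · rw [if_neg h, if_neg (by omega)])
      (by
        refine Ideal.span_le.2 ?_
        rintro _ ⟨l, rfl⟩
        exact hdl l)
      (by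
        refine Ideal.span_le.2 ?_
        rintro _ ⟨l, rfl⟩
        have h1 : c l = d l + -(d l - c l) := by ring
        rw [SetLike.mem_coe, h1]
        refine Ideal.add_mem _ (Ideal.mem_sup_left (Ideal.subset_span ⟨l, rfl⟩))
          (Ideal.mem_sup_right (neg_mem ?_))
        rw [← pow_two, hd]
        dsimp only
        split_ifs
        · exact hc l
        · rw [sub_self]; exact Ideal.zero_mem _)
      (by
        rw [hd, hd']; dsimp only
        rw [if_neg (lt_irrefl k), if_pos (Nat.lt_succ_self k)]
        exact hc _)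
    refine ⟨f * g, ?_, ?_⟩
    · have e : f * g - 1 = (f - 1) * g + (g - 1) := by ring
      rw [e]
      exact Ideal.add_mem _ (Ideal.mul_mem_right _ _ hf) hg
    · intro B _ φ hu
      rw [map_mul] at hu
      exact eeq_trans (hB B φ (isUnit_of_mul_isUnit_left hu))
        (hB2 B φ (isUnit_of_mul_isUnit_right hu))

/-- the form without localisations -/
theorem framing {r : ℕ} (hr : 2 ≤ r) {A : Type u} [CommRing A] (c c' : Fin r → A)
    (hc : ∀ j, c' j - c j ∈ (idl c) ^ 2) :
    ∃ f : A, f - 1 ∈ idl c ∧ ∀ (B : Type u) [CommRing B] (φ : A →+* B), IsUnit (φ f) →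
      EEq (mp φ c) (mp φ c') := by
  obtain ⟨f, hf, hB⟩ := main hr c c' hc r le_rfl
  refine ⟨f, hf, fun B _ φ hu => ?_⟩
  have := hB B φ hu
  simpa using this

theorem hB2 (_hB0 : StB0.{u}) : StB2.{u} := by
  intro A _ r hr c c' hc
  obtain ⟨f, hf, hB⟩ := framing hr c c' hc
  refine ⟨f, hf, ?_⟩
  obtain ⟨e, he, h⟩ := hB (Localization.Away f) (algebraMap A (Localization.Away f))
    (IsLocalization.Away.algebraMap_isUnit f)
  exact ⟨e, he, h⟩

end Pool.Agent.Helper93.GU
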