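import Pool.Agent.Helper91.GU.StD

/-!
# Module D6 of project GU (MP_b1e6de_al): the choice of `α_j, β_j` for three algebras
-/

set_option autoImplicit false

namespace Pool.Agent.Helper93.GU

open Polynomial IsLocalRing
open Pool.Agent.Helper91.GU

universe u

theorem comap_ne {L E : Type u} [CommRing L] [IsLocalRing L] [CommRing E] [Algebra L E]
    (h : (maximalIdeal L).map (algebraMap L E) = ⊤) (P : Ideal E) (hP : P.IsPrime) :
    P.comap (algebraMap L E) ≠ maximalIdeal L := by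
  intro he
  have h1 : (maximalIdeal L).map (algebraMap L E) ≤ P := by
    rw [Ideal.map_le_iff_le_comap, he]
  rw [h] at h1
  exact hP.ne_top (top_le_iff.1 h1)

theorem step (hD1 : StD1.{u}) {L E0 E1 E2 : Type u} [CommRing L] [IsLocalRing L] [CommRing E0]
    [CommRing E1] [CommRing E2] [IsNoetherianRing E0] [IsNoetherianRing E1] [IsNoetherianRing E2]
    [Algebra L E0] [Algebra L E1] [Algebra L E2]
    (h0 : (maximalIdeal L).map (algebraMap L E0) = ⊤)
    (h1 : (maximalIdeal L).map (algebraMap L E1) = ⊤)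
    (h2 : (maximalIdeal L).map (algebraMap L E2) = ⊤)
    (J0 : Ideal E0) (J1 : Ideal E1) (J2 : Ideal E2) (x : E0) (y : E1) (z : E2) :
    ∃ a ∈ maximalIdeal L, (∀ P ∈ J0.minimalPrimes, x - algebraMap L E0 a ∉ P) ∧
      (∀ P ∈ J1.minimalPrimes, y - algebraMap L E1 a ∉ P) ∧
      (∀ P ∈ J2.minimalPrimes, z - algebraMap L E2 a ∉ P) := by
  classical
  set p0 : E0 × E1 × E2 →+* E0 := RingHom.fst E0 (E1 × E2) with hp0
  set p1 : E0 × E1 × E2 →+* E1 := (RingHom.fst E1 E2).comp (RingHom.snd E0 (E1 × E2)) with hp1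
  set p2 : E0 × E1 × E2 →+* E2 := (RingHom.snd E1 E2).comp (RingHom.snd E0 (E1 × E2)) with hp2
  have c0 : p0.comp (algebraMap L (E0 × E1 × E2)) = algebraMap L E0 := rfl
  have c1 : p1.comp (algebraMap L (E0 × E1 × E2)) = algebraMap L E1 := rfl
  have c2 : p2.comp (algebraMap L (E0 × E1 × E2)) = algebraMap L E2 := rfl
  obtain ⟨a, ha, hS⟩ := hD1 L (E0 × E1 × E2)
    ((Ideal.comap p0 '' J0.minimalPrimes ∪ Ideal.comap p1 '' J1.minimalPrimes) ∪
      Ideal.comap p2 '' J2.minimalPrimes)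
    ((((J0.finite_minimalPrimes_of_isNoetherianRing _).image _).union
      ((J1.finite_minimalPrimes_of_isNoetherianRing _).image _)).union
      ((J2.finite_minimalPrimes_of_isNoetherianRing _).image _))
    (by
      rintro P ((⟨Q, hQ, rfl⟩ | ⟨Q, hQ, rfl⟩) | ⟨Q, hQ, rfl⟩)
      · have hQp : Q.IsPrime := hQ.1.1
        refine ⟨Ideal.comap_isPrime _ _, ?_⟩
        rw [Ideal.comap_comap, c0]
        exact comap_ne h0 Q hQp
      · have hQp : Q.IsPrime := hQ.1.1
        refine ⟨Ideal.comap_isPrime _ _, ?_⟩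
        rw [Ideal.comap_comap, c1]
        exact comap_ne h1 Q hQp
      · have hQp : Q.IsPrime := hQ.1.1
        refine ⟨Ideal.comap_isPrime _ _, ?_⟩
        rw [Ideal.comap_comap, c2]
        exact comap_ne h2 Q hQp)
    (x, y, z)
  refine ⟨a, ha, ?_, ?_, ?_⟩
  · intro P hP hx
    exact hS (P.comap p0) (Or.inl (Or.inl ⟨P, hP, rfl⟩)) hx
  · intro P hP hx
    exact hS (P.comap p1) (Or.inl (Or.inr ⟨P, hP, rfl⟩)) hx
  · intro P hP hx
    exact hS (P.comap p2) (Or.inr ⟨P, hP, rfl⟩) hx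

theorem seq (hD1 : StD1.{u}) (hD2 : StD2.{u}) {L E0 E1 E2 : Type u} [CommRing L] [IsLocalRing L]
    [CommRing E0] [CommRing E1] [CommRing E2] [IsNoetherianRing E0] [IsNoetherianRing E1]
    [IsNoetherianRing E2] [Algebra L E0] [Algebra L E1] [Algebra L E2]
    (h0 : (maximalIdeal L).map (algebraMap L E0) = ⊤)
    (h1 : (maximalIdeal L).map (algebraMap L E1) = ⊤)
    (h2 : (maximalIdeal L).map (algebraMap L E2) = ⊤) (r : ℕ) :
    ∀ (J0 : Ideal E0) (J1 : Ideal E1) (J2 : Ideal E2) (t0 t1 t2 : ℕ)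
      (x : Fin r → E0) (y : Fin r → E1) (z : Fin r → E2),
      (∀ P : Ideal E0, P.IsPrime → J0 ≤ P → (t0 : ℕ∞) ≤ P.height) →
      (∀ P : Ideal E1, P.IsPrime → J1 ≤ P → (t1 : ℕ∞) ≤ P.height) →
      (∀ P : Ideal E2, P.IsPrime → J2 ≤ P → (t2 : ℕ∞) ≤ P.height) →
      ∃ α : Fin r → L, (∀ j, α j ∈ maximalIdeal L) ∧
        (∀ P : Ideal E0, P.IsPrime → J0 ≤ P → (∀ j, x j - algebraMap L E0 (α j) ∈ P) →
          ((t0 + r : ℕ) : ℕ∞) ≤ P.height) ∧
        (∀ P : Ideal E1, P.IsPrime → J1 ≤ P → (∀ j, y j - algebraMap L E1 (α j) ∈ P) →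
          ((t1 + r : ℕ) : ℕ∞) ≤ P.height) ∧
        (∀ P : Ideal E2, P.IsPrime → J2 ≤ P → (∀ j, z j - algebraMap L E2 (α j) ∈ P) →
          ((t2 + r : ℕ) : ℕ∞) ≤ P.height) := by
  induction r with
  | zero =>
    intro J0 J1 J2 t0 t1 t2 x y z g0 g1 g2
    refine ⟨fun j => j.elim0, fun j => j.elim0, ?_, ?_, ?_⟩
    · intro P hP hJ _
      simpa using g0 P hP hJ
    · intro P hP hJ _
      simpa using g1 P hP hJ
    · intro P hP hJ _
      simpa using g2 P hP hJ
  | succ r ih =>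
    intro J0 J1 J2 t0 t1 t2 x y z g0 g1 g2
    obtain ⟨a, ha, b0, b1, b2⟩ := step hD1 h0 h1 h2 J0 J1 J2 (x 0) (y 0) (z 0)
    obtain ⟨α, hα, k0, k1, k2⟩ := ih (J0 ⊔ Ideal.span {x 0 - algebraMap L E0 a})
      (J1 ⊔ Ideal.span {y 0 - algebraMap L E1 a}) (J2 ⊔ Ideal.span {z 0 - algebraMap L E2 a})
      (t0 + 1) (t1 + 1) (t2 + 1) (fun j => x j.succ) (fun j => y j.succ) (fun j => z j.succ)
      (fun P hP hJ => hD2 E0 J0 _ t0 b0 g0 P hP (le_sup_left.trans hJ)
        (hJ (Ideal.mem_sup_right (Ideal.mem_span_singleton_self _))))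
      (fun P hP hJ => hD2 E1 J1 _ t1 b1 g1 P hP (le_sup_left.trans hJ)
        (hJ (Ideal.mem_sup_right (Ideal.mem_span_singleton_self _))))
      (fun P hP hJ => hD2 E2 J2 _ t2 b2 g2 P hP (le_sup_left.trans hJ)
        (hJ (Ideal.mem_sup_right (Ideal.mem_span_singleton_self _))))
    refine ⟨Fin.cons a α, ?_, ?_, ?_, ?_⟩
    · intro j
      refine Fin.cases ?_ (fun j => ?_) j
      · simpa using ha
      · simpa using hα j
    · intro P hP hJ hx
      have e : t0 + (r + 1) = t0 + 1 + r := by ring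
      rw [e]
      refine k0 P hP (sup_le hJ ?_) (fun j => ?_)
      · rw [Ideal.span_singleton_le_iff_mem]
        simpa using hx 0
      · simpa using hx j.succ
    · intro P hP hJ hx
      have e : t1 + (r + 1) = t1 + 1 + r := by ring
      rw [e]
      refine k1 P hP (sup_le hJ ?_) (fun j => ?_)
      · rw [Ideal.span_singleton_le_iff_mem]
        simpa using hx 0
      · simpa using hx j.succ
    · intro P hP hJ hx
      have e : t2 + (r + 1) = t2 + 1 + r := by ring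
      rw [e]
      refine k2 P hP (sup_le hJ ?_) (fun j => ?_)
      · rw [Ideal.span_singleton_le_iff_mem]
        simpa using hx 0
      · simpa using hx j.succ

theorem hD6 (hD1 : StD1.{u}) (hD2 : StD2.{u}) : StD6.{u} := by
  intro L E0 E1 E2 _ _ _ _ _ _ _ _ _ _ _ h0 h1 h2 r ψ χ φ1 x1 φ2 x2 H0 H1
  obtain ⟨β, hβ, kb, -, -⟩ := seq hD1 hD2 h0 h0 h0 r (⊥ : Ideal E0) (⊥ : Ideal E0) (⊥ : Ideal E0)
    0 0 0 ψ ψ ψ (fun P _ _ => by simp) (fun P _ _ => by simp) (fun P _ _ => by simp)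
  obtain ⟨α, hα, k0, k1, k2⟩ := seq hD1 hD2 h0 h1 h2 r
    (Ideal.span (Set.range (fun j => ψ j - algebraMap L E0 (β j)))) (⊥ : Ideal E1) (⊥ : Ideal E2)
    r 0 0 χ (fun j => φ1 j - algebraMap L E1 (β j) * x1) (fun j => φ2 j - algebraMap L E2 (β j) * x2)
    (fun P hP hJ => by
      have := kb P hP bot_le (fun j => hJ (Ideal.subset_span ⟨j, rfl⟩))
      simpa using this)
    (fun P _ _ => by simp) (fun P _ _ => by simp)
  refine ⟨α, β, hα, hβ, ?_, ?_, ?_⟩
  · by_contra hne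
    obtain ⟨P, hPm, hle⟩ := Ideal.exists_le_maximal _ hne
    have hP : P.IsPrime := hPm.isPrime
    have h3 := k0 P hP (le_trans (Ideal.span_mono Set.subset_union_left) hle)
      (fun j => hle (Ideal.subset_span (Or.inr ⟨j, rfl⟩)))
    have h4 := H0 P hP
    rw [← two_mul] at h3
    exact absurd h3 (not_le.2 h4)
  · by_contra hne
    obtain ⟨P, hPm, hle⟩ := Ideal.exists_le_maximal _ hne
    have hP : P.IsPrime := hPm.isPrime
    have h3 := k1 P hP bot_le (fun j => hle (Ideal.subset_span ⟨j, rfl⟩))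
    have h4 := H1 P hP
    rw [zero_add] at h3
    exact absurd h3 (not_le.2 h4)
  · intro P hP hx
    have h3 := k2 P hP bot_le hx
    rwa [zero_add] at h3

end Pool.Agent.Helper93.GU
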