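import Pool.Agent.Helper91.GU.StF

/-!
# Module F5a of project GU (MP_b1e6de_al): `γ - k G ∈ I² + (h)`
-/

set_option autoImplicit false

namespace Pool.Agent.Helper93.GU

open Polynomial
open Pool.Agent.Helper91.GU

universe u

section
variable {L : Type u} [CommRing L] (I : Ideal L[X])

theorem phi_C (c : L) : Phi I (C c) = C (Ideal.Quotient.mk I (C c)) := by simp [Phi]

theorem phi_X : Phi I X = C (Ideal.Quotient.mk I X) * X := by simp [Phi]

theorem aux_pow {R : Type u} [CommRing R] (a x : R) (k : ℕ) :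
    C a * (C x * X) ^ k = C (a * x ^ k) * X ^ k := by
  rw [mul_pow, C_mul, C_pow, mul_assoc]

theorem phi_aX {a : L} {k : ℕ} (hk : 1 - C a * X ^ k ∈ I) : Phi I (C a * X ^ k) = X ^ k := by
  have h1 : Ideal.Quotient.mk I (C a * X ^ k) = 1 := by
    rw [← map_one (Ideal.Quotient.mk I)]
    exact ((Ideal.Quotient.eq).2 hk).symm
  rw [map_mul, map_pow, phi_C, phi_X, aux_pow, ← map_pow, ← map_mul, h1, C_1, one_mul]

/-- `Φ(∑ W_l a_{M+l} X^{M+l}) = Z^M W̄` -/
theorem phi_w (a : ℕ → L) (M : ℕ) (ha : ∀ k, M ≤ k → 1 - C (a k) * X ^ k ∈ I) (W : L[X]) :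
    Phi I (∑ l ∈ Finset.range (W.natDegree + 1), C (W.coeff l) * (C (a (M + l)) * X ^ (M + l)))
      = X ^ M * W.map (algebraMap L (L[X] ⧸ I)) := by
  rw [map_sum]
  conv_rhs => rw [W.as_sum_range_C_mul_X_pow, Polynomial.map_sum, Finset.mul_sum]
  apply Finset.sum_congr rfl
  intro l _
  rw [map_mul, phi_aX I (ha (M + l) (Nat.le_add_right _ _)), phi_C, Polynomial.map_mul,
    Polynomial.map_C, Polynomial.map_pow, Polynomial.map_X, pow_add]
  have : algebraMap L (L[X] ⧸ I) (W.coeff l) = Ideal.Quotient.mk I (C (W.coeff l)) := rfl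
  rw [this]
  ring

theorem map_le {I : Ideal L[X]} {s : ℕ} (b : Fin s → L) {κ : ℕ} (hκ : 1 ≤ κ) {g : L}
    (hg : 1 - C g * X ^ κ ∈ I) (hJ : ∀ j : L, C j ∈ I → g * j ∈ Ideal.span (Set.range b)) (N : ℕ) :
    (I.comap C).map C ≤ I ^ 2 ⊔ Ideal.span (Set.range fun j => C (b j) * X ^ N) := by
  rw [Ideal.map_le_iff_le_comap]
  intro j hj
  rw [Ideal.mem_comap] at hj ⊢
  have h1 : C j * (1 - (C g * X ^ κ) ^ (N + 1)) ∈ I ^ 2 := by
    rw [pow_two]
    refine Ideal.mul_mem_mul hj ?_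
    have h2 : (1 : L[X]) - (C g * X ^ κ) ^ (N + 1)
        = (1 - C g * X ^ κ) * ∑ i ∈ Finset.range (N + 1), (C g * X ^ κ) ^ i :=
      (mul_neg_geom_sum _ _).symm
    rw [h2]
    exact Ideal.mul_mem_right _ _ hg
  have h3 : C j * (C g * X ^ κ) ^ (N + 1) ∈ Ideal.span (Set.range fun j => C (b j) * X ^ N) := by
    have h4 := hJ j hj
    rw [Ideal.mem_span_range_iff_exists_fun] at h4
    obtain ⟨μ, hμ⟩ := h4
    have hle : N ≤ κ * (N + 1) := by nlinarith
    have h5 : C j * (C g * X ^ κ) ^ (N + 1)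
        = ∑ i, (C (μ i) * C g ^ N * X ^ (κ * (N + 1) - N)) * (C (b i) * X ^ N) := by
      have h6 : (X : L[X]) ^ (κ * (N + 1)) = X ^ (κ * (N + 1) - N) * X ^ N := by
        rw [← pow_add, Nat.sub_add_cancel hle]
      rw [mul_pow, ← pow_mul, h6, pow_succ]
      have h7 : C (g * j) = ∑ i, C (μ i) * C (b i) := by
        rw [← hμ, map_sum]
        apply Finset.sum_congr rfl
        intro i _
        rw [C_mul]
      have h8 : C j * (C g ^ N * C g * (X ^ (κ * (N + 1) - N) * X ^ N))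
          = C (g * j) * (C g ^ N * (X ^ (κ * (N + 1) - N) * X ^ N)) := by
        rw [C_mul]; ring
      rw [h8, h7, Finset.sum_mul]
      apply Finset.sum_congr rfl
      intro i _
      ring
    rw [h5]
    exact Ideal.sum_mem _ (fun i _ => Ideal.mul_mem_left _ _ (Ideal.subset_span ⟨i, rfl⟩))
  have h9 : C j = C j * (1 - (C g * X ^ κ) ^ (N + 1)) + C j * (C g * X ^ κ) ^ (N + 1) := by ring
  rw [h9]
  exact Submodule.add_mem_sup h1 h3

end

theorem hF5a (hE0 : StE0.{u}) : StF5a.{u} := by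
  intro L _ I k₀ a s b κ g hD p G q' hG N k hk
  obtain ⟨hY, -, hκ, hg, hJ⟩ := hD
  obtain ⟨hp1, hPG, -⟩ := hG
  obtain ⟨-, hE1, -, -, hEe, -, -⟩ := hE0 L I k₀ a hY
  set m := (s + 1).factorial with hm
  set φ := algebraMap L (L[X] ⧸ I) with hφ
  set f : L[X] := (1 - C (a k) * X ^ k) - C (k : L) * G with hf
  -- the polynomial `P`
  obtain ⟨W, hW⟩ : ∃ W : L[X], 1 - X ^ k - C (k : L) * ((1 - X) * p ^ m) = (1 - X) ^ 2 * W := by
    have h1 : (X - C (1 : L)) ∣ (∑ i ∈ Finset.range k, X ^ i) - C (k : L) * p ^ m := by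
      rw [dvd_iff_isRoot, IsRoot.def]
      simp [eval_finset_sum, hp1]
    obtain ⟨V, hV⟩ := h1
    refine ⟨-V, ?_⟩
    have h2 : (1 : L[X]) - X ^ k = (1 - X) * ∑ i ∈ Finset.range k, X ^ i :=
      (mul_neg_geom_sum _ _).symm
    rw [C_1] at hV
    rw [h2]
    linear_combination (1 - X) * hV
  have hPf : Phi I f = (1 - X) ^ 2 * W.map φ := by
    have h1 : Phi I (C (k : L) * G) = (C (k : L) * ((1 - X) * p ^ m)).map φ := by
      rw [map_mul, hPG, phi_C, Polynomial.map_mul, Polynomial.map_C, Polynomial.map_mul,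
        Polynomial.map_sub, Polynomial.map_one, Polynomial.map_X, Polynomial.map_pow]
      rfl
    have h2 : Phi I f = (1 - X ^ k - C (k : L) * ((1 - X) * p ^ m)).map φ := by
      rw [hf, map_sub, map_sub, map_one, phi_aX I (hY k hk), h1, Polynomial.map_sub,
        Polynomial.map_sub, Polynomial.map_one, Polynomial.map_pow, Polynomial.map_X]
    rw [h2, hW, Polynomial.map_mul, Polynomial.map_pow, Polynomial.map_sub, Polynomial.map_one,
      Polynomial.map_X]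
  have hfI : f ∈ I := by
    have h1 := hE1 f
    rw [hPf] at h1
    simp only [eval_mul, eval_pow, eval_sub, eval_one, eval_X, sub_self] at h1
    rw [← Ideal.Quotient.eq_zero_iff_mem, ← h1]
    ring
  -- `t` and `w`
  set t : L[X] := C (a k₀) * X ^ k₀ - C (a (k₀ + 1)) * X ^ (k₀ + 1) with ht
  set w : L[X] := ∑ l ∈ Finset.range (W.natDegree + 1),
    C (W.coeff l) * (C (a (k₀ + l)) * X ^ (k₀ + l)) with hw
  have htI : t ∈ I := by
    have e : t = (1 - C (a (k₀ + 1)) * X ^ (k₀ + 1)) - (1 - C (a k₀) * X ^ k₀) := by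
      rw [ht]; ring
    rw [e]
    exact Ideal.sub_mem _ (hY _ (Nat.le_succ _)) (hY _ le_rfl)
  have hPt : Phi I t = X ^ k₀ * (1 - X) := by
    rw [ht, map_sub, phi_aX I (hY k₀ le_rfl), phi_aX I (hY (k₀ + 1) (Nat.le_succ _))]
    ring
  have hPw : Phi I w = X ^ k₀ * W.map φ := phi_w I a k₀ hY W
  have h3 : (C (a k₀) * X ^ k₀) ^ 3 * f - t ^ 2 * w ∈ (I.comap C).map C := by
    rw [← hEe, map_sub, map_mul, map_mul, map_pow, map_pow, phi_aX I (hY _ le_rfl), hPf, hPt, hPw]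
    ring
  have h4 : f - (C (a k₀) * X ^ k₀) ^ 3 * f ∈ I ^ 2 := by
    have e : f - (C (a k₀) * X ^ k₀) ^ 3 * f
        = ((1 - C (a k₀) * X ^ k₀) *
          (1 + C (a k₀) * X ^ k₀ + (C (a k₀) * X ^ k₀) ^ 2)) * f := by ring
    rw [e, pow_two I]
    exact Ideal.mul_mem_mul (Ideal.mul_mem_right _ _ (hY _ le_rfl)) hfI
  have h5 : t ^ 2 * w ∈ I ^ 2 := Ideal.mul_mem_right _ _ (Ideal.pow_mem_pow htI 2)
  have e : f = ((C (a k₀) * X ^ k₀) ^ 3 * f - t ^ 2 * w)
      + ((f - (C (a k₀) * X ^ k₀) ^ 3 * f) + t ^ 2 * w) := by ring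
  rw [e]
  refine Ideal.add_mem _ (map_le b hκ hg hJ N h3) (Ideal.mem_sup_left (Ideal.add_mem _ h4 h5))

end Pool.Agent.Helper93.GU
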