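import Pool.Agent.Helper91.GU.StF
import Pool.Agent.Helper93.GU.M_B2
import Pool.Agent.Helper93.GU.M_F5a

/-!
# Module F5 of project GU (MP_b1e6de_al): the support at `I`
-/

set_option autoImplicit false

namespace Pool.Agent.Helper93.GU

open Polynomial
open Pool.Agent.Helper91.GU

universe u

theorem idl_vecMul_le {A : Type u} [CommRing A] {n : Type} [Fintype n] (c : n → A)
    (M : Matrix n n A) : idl (Matrix.vecMul c M) ≤ idl c := by
  refine Ideal.span_le.2 ?_
  rintro _ ⟨j, rfl⟩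
  exact Ideal.sum_mem _ (fun i _ => Ideal.mul_mem_right _ _ (Ideal.subset_span ⟨i, rfl⟩))

theorem idl_vecMul {A : Type u} [CommRing A] {n : Type} [Fintype n] [DecidableEq n] (c : n → A)
    (M : Matrix n n A) (hM : IsUnit M.det) : idl (Matrix.vecMul c M) = idl c := by
  refine le_antisymm (idl_vecMul_le c M) ?_
  have h1 := idl_vecMul_le (Matrix.vecMul c M) M⁻¹
  rwa [Matrix.vecMul_vecMul, Matrix.mul_nonsing_inv _ hM, Matrix.vecMul_one] at h1

theorem map_idl {A B : Type u} [CommRing A] [CommRing B] {n : Type} (φ : A →+* B) (c : n → A) :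
    (idl c).map φ = idl (mp φ c) := by
  unfold idl
  rw [Ideal.map_span, ← Set.range_comp]
  rfl

theorem mem_idl_mp {A B : Type u} [CommRing A] [CommRing B] {n : Type} (φ : A →+* B) (c : n → A)
    {x : A} (hx : x ∈ idl c) : φ x ∈ idl (mp φ c) := by
  rw [← map_idl]
  exact Ideal.mem_map_of_mem φ hx

/-- `(kG, h) D = (G, h)` with an invertible diagonal matrix -/
theorem crow_scale {L : Type u} [CommRing L] {s : ℕ} (G : L[X]) (b : Fin s → L) (N : ℕ) (k : L)
    (hk : IsUnit k) :
    ∃ D : Matrix (Fin (s + 1)) (Fin (s + 1)) L[X], IsUnit D.det ∧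
      Matrix.vecMul (crow (C k * G) b N) D = crow G b N := by
  obtain ⟨κ, hκ⟩ := hk.exists_left_inv
  refine ⟨Matrix.diagonal (Fin.cons (C κ) (fun _ => 1)), ?_, ?_⟩
  · rw [Matrix.det_diagonal, Fin.prod_univ_succ]
    simp only [Fin.cons_zero, Fin.cons_succ, Finset.prod_const_one, mul_one]
    exact (IsUnit.of_mul_eq_one k hκ).map C
  · funext j
    rw [Matrix.vecMul_diagonal]
    refine Fin.cases ?_ (fun j => ?_) j
    · simp only [crow, Fin.cons_zero]
      have : C κ * C k = (1 : L[X]) := by rw [← C_mul, hκ, C_1]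
      linear_combination G * this
    · simp only [crow, Fin.cons_succ, mul_one]

theorem hF5 (hB0 : StB0.{u}) (hB1 : StB1.{u}) (_hB2 : StB2.{u}) (hB7 : StB7.{u})
    (hF3c : StF3c.{u}) (hF5a : StF5a.{u}) : StF5.{u} := by
  intro L _ s hs c k₀ a b κ g hD p G q' hG N k hk hku e he hce v₀ û₁ hu1 hu2
  set I := idl c with hI
  set γ : L[X] := 1 - C (a k) * X ^ k with hγ
  obtain ⟨-, -, -, -, -, hEl, -⟩ := hB0 L[X] L[X] (RingHom.id _) (Fin (s + 1))
  -- second elementary operation
  set d' := Matrix.vecMul c e with hd'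
  have hd'0 : d' 0 - γ ∈ I ^ 2 := by simpa [crow] using hce 0
  have hd's : ∀ j : Fin s, d' j.succ - C (b j) * X ^ N ∈ I ^ 2 := fun j => by
    simpa [crow] using hce j.succ
  have h1 := hF5a L I k₀ a s b κ g hD p G q' hG N k hk
  rw [Submodule.mem_sup] at h1
  obtain ⟨x, hx, y, hy, hxy⟩ := h1
  rw [Ideal.mem_span_range_iff_exists_fun] at hy
  obtain ⟨μ, hμ⟩ := hy
  set d : Fin (s + 1) → L[X] := Function.update d' 0
    (d' 0 + ∑ l ∈ Finset.univ.erase (0 : Fin (s + 1)), (Fin.cons 0 (fun j => - μ j) :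
      Fin (s + 1) → L[X]) l * d' l) with hd
  have hE1 : EEq c d := by
    refine eeq_trans ⟨e, he, rfl⟩ (eeq_sum d' _ _ (Finset.notMem_erase _ _))
  obtain ⟨ê, hê, hcd⟩ := hE1
  obtain ⟨-, hêdet, -, -, -⟩ := hEl ê hê
  have hêu : IsUnit ê.det := by rw [hêdet]; exact isUnit_one
  have hId : idl d = I := by rw [← hcd, idl_vecMul c ê hêu]
  -- the row `c''`
  set c'' : Fin (s + 1) → L[X] := crow (C (k : L) * G) b N with hc''
  have hd0 : d 0 = d' 0 - ∑ j, μ j * d' j.succ := by
    rw [hd, Function.update_self]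
    have h2 : ∑ l, (Fin.cons 0 (fun j => - μ j) : Fin (s + 1) → L[X]) l * d' l
        = (Fin.cons 0 (fun j => - μ j) : Fin (s + 1) → L[X]) 0 * d' 0
          + ∑ l ∈ Finset.univ.erase (0 : Fin (s + 1)),
            (Fin.cons 0 (fun j => - μ j) : Fin (s + 1) → L[X]) l * d' l :=
      (Finset.add_sum_erase Finset.univ _ (Finset.mem_univ _)).symm
    rw [Fin.sum_univ_succ] at h2
    simp only [Fin.cons_zero, Fin.cons_succ, zero_mul, zero_add] at h2
    rw [← h2]
    simp only [neg_mul, Finset.sum_neg_distrib]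
    ring
  have hds : ∀ j : Fin s, d j.succ = d' j.succ := fun j => by
    rw [hd, Function.update_of_ne (Fin.succ_ne_zero j)]
  have hdc : ∀ j, c'' j - d j ∈ (idl d) ^ 2 := by
    rw [hId]
    intro j
    refine Fin.cases ?_ (fun j => ?_) j
    · rw [hd0]
      have h3 : c'' 0 = C (k : L) * G := by rw [hc'']; simp [crow]
      have h4 : c'' 0 - (d' 0 - ∑ j, μ j * d' j.succ)
          = (-(d' 0 - γ) - x) + ∑ j, μ j * (d' j.succ - C (b j) * X ^ N) := by
        rw [h3]
        simp only [mul_sub, Finset.sum_sub_distrib]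
        rw [hμ]
        linear_combination hxy
      rw [h4]
      exact Ideal.add_mem _ (Ideal.sub_mem _ (neg_mem hd'0) hx)
        (Ideal.sum_mem _ (fun j _ => Ideal.mul_mem_left _ _ (hd's j)))
    · rw [hds]
      have h3 : c'' j.succ = C (b j) * X ^ N := by rw [hc'']; simp [crow]
      rw [h3, ← neg_sub]
      exact neg_mem (hd's j)
  obtain ⟨f, hf, hB⟩ := framing (by omega) d c'' hdc
  obtain ⟨ε, hε, hdε⟩ := hB (Localization.Away f) (algebraMap L[X] (Localization.Away f))
    (IsLocalization.Away.algebraMap_isUnit f)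
  obtain ⟨-, -, -, -, -, hElf, -⟩ := hB0 (Localization.Away f) (Localization.Away f)
    (RingHom.id _) (Fin (s + 1))
  obtain ⟨hεH, hεdet, -, -, -⟩ := hElf ε hε
  have hεu : IsUnit ε.det := by rw [hεdet]; exact isUnit_one
  set i : L[X] := 1 - f with hi
  have hiI : i ∈ I := by
    rw [← hId, hi, ← neg_sub]; exact neg_mem hf
  have hiu : IsUnit (algebraMap L[X] (Localization.Away i) i) :=
    IsLocalization.Away.algebraMap_isUnit i
  -- the ideal of `c''`
  obtain ⟨D, hDu, hDc⟩ := crow_scale G b N (k : L) hku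
  have hidc'' : idl c'' = idl (crow G b N) := by rw [← hDc, idl_vecMul _ D hDu]
  -- `(û₁ - 1) i ∈ (c'')`
  have hmem : (û₁ - 1) * i ∈ idl c'' := by
    rw [hidc'', (hF3c L I k₀ a s b κ g hD p G q' hG N).2]
    rw [map_mul, map_sub, map_one]
    constructor
    · refine Dvd.dvd.mul_left ?_ _
      have h5 : (X - C (1 : L[X] ⧸ I)) ∣ Phi I i := by
        rw [dvd_iff_isRoot, IsRoot.def]
        have h6 : (Phi I i).eval 1 = Ideal.Quotient.mk I i := by
          unfold Phi
          rw [coe_eval₂RingHom, eval₂_eq_sum_range, eval_finset_sum]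
          conv_rhs => rw [i.as_sum_range_C_mul_X_pow, map_sum]
          apply Finset.sum_congr rfl
          intro l _
          simp
        rw [h6]
        exact Ideal.Quotient.eq_zero_iff_mem.2 hiI
      have h7 : (1 - X : (L[X] ⧸ I)[X]) = -(X - C (1 : L[X] ⧸ I)) := by rw [C_1]; ring
      rw [h7, neg_dvd]
      exact h5
    · exact Dvd.dvd.mul_right hu2 _
  have key := hB1 L[X] f i ⟨1, 1, by rw [hi]; ring⟩ (s + 1) v₀ û₁ d c''
    (by
      have h8 : algebraMap L[X] (Localization.Away i) i ∈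
          idl (mp (algebraMap L[X] (Localization.Away i)) d) :=
        mem_idl_mp _ d (by rw [hId]; exact hiI)
      rw [Ideal.eq_top_of_isUnit_mem _ h8 hiu]
      exact Submodule.mem_top)
    (by
      have h8 := mem_idl_mp (algebraMap L[X] (Localization.Away i)) c'' hmem
      rw [map_mul, map_sub, map_one] at h8
      obtain ⟨q, hq⟩ := hiu.exists_right_inv
      have h9 := Ideal.mul_mem_right q _ h8
      rwa [mul_assoc, hq, mul_one] at h9)
    ⟨ε, hεH, hdε⟩
    (by
      rw [← hdε, idl_vecMul _ ε hεu, ← map_sub]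
      exact mem_idl_mp _ d (by rw [hId]; exact hu1))
  obtain ⟨hR, hS⟩ := hB7 L[X] L[X] (RingHom.id _)
  obtain ⟨-, -, htr, -, -, -, -⟩ := hR (Unit ⊕ Fin (s + 1))
  have r1 : REq (row v₀ c) (row v₀ d) := (hS (s + 1) v₀ v₀ c d).2.2.1 ê hêu hcd
  have r2 : REq (row û₁ c'') (row û₁ (crow G b N)) :=
    (hS (s + 1) û₁ û₁ c'' (crow G b N)).2.2.1 D hDu hDc
  exact htr _ _ _ r1 (htr _ _ _ key r2)

end Pool.Agent.Helper93.GU
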